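import Pool.Agent.Helper358.Compl

set_option autoImplicit false

namespace Pool.Agent.Results.MP_3b565c_an.NoAveraging

open Pool.Agent.Helper358.LOne Pool.Agent.Helper358.Compl

universe u

/-- For every uncountable (discrete) `κ`, no continuous surjection `f : A(κ)^ℕ → B(κ)` admits an
averaging operator, i.e. a bounded linear `T : C(A(κ)^ℕ) → C(B(κ))` with `T (g ∘ f) = g` for all
`g ∈ C(B(κ))`. (`B(κ) = Ball κ`, and `A(κ) = OnePoint κ`.) -/
theorem result (κ : Type u) [TopologicalSpace κ] [DiscreteTopology κ] [Uncountable κ]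
    (f : C(ℕ → OnePoint κ, Ball κ)) (_hf : Function.Surjective f) :
    ¬ ∃ T : C(ℕ → OnePoint κ, ℝ) →L[ℝ] C(Ball κ, ℝ), ∀ g : C(Ball κ, ℝ), T (g.comp f) = g := by
  rintro ⟨T, hT⟩
  let S : C(Ball κ, ℝ) →L[ℝ] C(ℕ → OnePoint κ, ℝ) :=
    { toFun := fun g => g.comp f
      map_add' := fun _ _ => by ext x; rfl
      map_smul' := fun _ _ => by ext x; rfl
      cont := ContinuousMap.continuous_precomp f }
  exact no_compl S T hT

end Pool.Agent.Results.MP_3b565c_an.NoAveraging
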